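import Mathlib
import Pool.Agent.Helper17.SO.Stmts

set_option autoImplicit false

/-!
Statements of the project DG (distances in dense subsets of integer grids, MP_e500b6_co).
-/

namespace Pool.Agent.Helper37.DG

open Finset
open scoped Classical
open Pool.Agent.Helper17.SO (PP LL)

/-- the primes `1 mod 4` in `(u, w]` -/
noncomputable def P1 (u w : ℕ) : Finset ℕ := (PP u w).filter (fun p => p % 4 = 1)

/-- the grid `[0, N) x [0, M)` -/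
noncomputable def box (N M : ℕ) : Finset (ℤ × ℤ) :=
  Finset.Ico (0 : ℤ) (N : ℤ) ×ˢ Finset.Ico (0 : ℤ) (M : ℤ)

/-- the box of differences -/
noncomputable def sbox (N M : ℕ) : Finset (ℤ × ℤ) :=
  Finset.Icc (-(N : ℤ)) (N : ℤ) ×ˢ Finset.Icc (-(M : ℤ)) (M : ℤ)

/-- the square of the length -/
def nm (v : ℤ × ℤ) : ℕ := (v.1 ^ 2 + v.2 ^ 2).natAbs

/-- the number of distances -/
noncomputable def dc (P : Finset (ℤ × ℤ)) : ℕ := (P.offDiag.image (fun a => nm (a.1 - a.2))).card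

/-- square roots of `-1` modulo the primes `1 mod 4` -/
def Root (j : ℕ → ℤ) : Prop := ∀ p : ℕ, p.Prime → p % 4 = 1 → (p : ℤ) ∣ j p ^ 2 + 1

/-- `v` lies in the lattice of index `p` -/
def hit (j : ℕ → ℤ) (p : ℕ) (v : ℤ × ℤ) : Prop := (p : ℤ) ∣ v.1 + j p * v.2

/-- no prime of `A` hits `v` -/
def Free (j : ℕ → ℤ) (A : Finset ℕ) (v : ℤ × ℤ) : Prop := ∀ p ∈ A, ¬ hit j p v

/-- product of the elements -/
def pr (T : Finset ℕ) : ℕ := ∏ p ∈ T, p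

/-- the sieve density -/
noncomputable def sw (A : Finset ℕ) : ℝ := Real.exp (-∑ p ∈ A, 1 / (p : ℝ))

/-- number of divisors -/
def tau (n : ℕ) : ℕ := n.divisors.card

/-- the part of `nm v` made of the primes `1 mod 4` up to `y` -/
noncomputable def ms (y : ℕ) (v : ℤ × ℤ) : ℕ := ∏ p ∈ P1 0 y, p ^ (nm v).factorization p

/-! ### A. Large sieve -/

/-- LSI: the large sieve inequality for Farey fractions. -/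
def ST_LSI : Prop := ∃ C : ℝ, 0 < C ∧ ∀ (N Q : ℕ) (S : Finset ℤ), 1 ≤ N → 1 ≤ Q →
  S ⊆ Finset.Ico (0 : ℤ) (N : ℤ) →
  ∑ q ∈ Finset.Icc 1 Q, ∑ a ∈ (Finset.range q).filter (fun a => a.Coprime q),
    ‖∑ x ∈ S, Complex.exp (2 * Real.pi * Complex.I * ((a : ℂ) * (x : ℂ) / (q : ℂ)))‖ ^ 2 ≤
  C * ((N : ℝ) + (Q : ℝ) ^ 2) * S.card

/-- exponential sum of `P` at the fraction `a / q` in the direction `(1, r)` -/
noncomputable def es (P : Finset (ℤ × ℤ)) (r : ℤ) (a q : ℕ) : ℂ :=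
  ∑ v ∈ P, Complex.exp (2 * Real.pi * Complex.I * ((a : ℂ) * ((v.1 + r * v.2 : ℤ) : ℂ) / (q : ℂ)))

/-- energy of `P` at the denominator `q` in the direction `(1, r)` -/
noncomputable def en (P : Finset (ℤ × ℤ)) (r : ℤ) (q : ℕ) : ℝ :=
  ∑ a ∈ (Finset.range q).filter (fun a => a.Coprime q), ‖es P r a q‖ ^ 2

/-- FOU: the pairs of points of `P` which are congruent modulo the lattice of `T`. -/
def ST_FOU : Prop := ∀ (j : ℕ → ℤ) (P : Finset (ℤ × ℤ)) (A : Finset ℕ) (R : Finset ℕ → ℤ),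
  (∀ p ∈ A, p.Prime) → (∀ U ∈ A.powerset, ∀ p ∈ U, (p : ℤ) ∣ R U - j p) →
  ∀ T ∈ A.powerset, (pr T : ℝ) *
    ((P ×ˢ P).filter (fun a => ∀ p ∈ T, hit j p (a.1 - a.2))).card =
    ∑ U ∈ T.powerset, en P (R U) (pr U)

/-- LSD: the decomposition with the bound for the energies. -/
def ST_LSD : Prop := ∃ C : ℝ, 0 < C ∧ ∀ (j : ℕ → ℤ) (N M : ℕ) (P : Finset (ℤ × ℤ)) (A : Finset ℕ),
  1 ≤ N → 1 ≤ M → P ⊆ box N M → (∀ p ∈ A, p.Prime) →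
  ∃ E : Finset ℕ → ℝ, E ∅ = (P.card : ℝ) ^ 2 ∧ (∀ U ∈ A.powerset, 0 ≤ E U) ∧
    (∀ T ∈ A.powerset, (pr T : ℝ) *
      ((P ×ˢ P).filter (fun a => ∀ p ∈ T, hit j p (a.1 - a.2))).card = ∑ U ∈ T.powerset, E U) ∧
    ∀ Q : ℕ, 1 ≤ Q → ∑ U ∈ A.powerset.filter (fun U => pr U ≤ Q), E U ≤
      C * (M * ((N : ℝ) + (Q : ℝ) ^ 2)) * P.card

/-! ### B. The sieve -/

/-- truncated Moebius weight -/
noncomputable def al (b : ℕ) (T : Finset ℕ) : ℝ := if T.card ≤ 2 * b then (-1) ^ T.card else 0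

/-- the first omitted term -/
noncomputable def be (b : ℕ) (T : Finset ℕ) : ℝ := if T.card = 2 * b + 1 then 1 else 0

/-- the union of the blocks -/
noncomputable def un (K : ℕ) (B : ℕ → Finset ℕ) : Finset ℕ := (Finset.range K).biUnion B

/-- the weights of the lower bound sieve -/
noncomputable def Lam (K : ℕ) (B : ℕ → Finset ℕ) (β : ℕ) (T : Finset ℕ) : ℝ :=
  ∏ m ∈ Finset.range K, al (β + m) (T ∩ B m) -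
  ∑ m ∈ Finset.range K, be (β + m) (T ∩ B m) *
    ∏ i ∈ (Finset.range K).erase m, al (β + i) (T ∩ B i)

/-- the blocks are disjoint -/
def Dsj (K : ℕ) (B : ℕ → Finset ℕ) : Prop := ∀ m < K, ∀ m' < K, m ≠ m' → Disjoint (B m) (B m')

/-- PF: product formula. -/
def ST_PF : Prop := ∀ (K : ℕ) (B : ℕ → Finset ℕ) (f : ℕ → Finset ℕ → ℝ), Dsj K B →
  ∑ T ∈ (un K B).powerset, ∏ m ∈ Finset.range K, f m (T ∩ B m) =
  ∏ m ∈ Finset.range K, ∑ T ∈ (B m).powerset, f m T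

/-- SV1: the weights are a lower bound for the indicator. -/
def ST_SV1 : Prop := ∀ (K : ℕ) (B : ℕ → Finset ℕ) (β : ℕ), Dsj K B → ∀ W ⊆ un K B,
  ∑ T ∈ W.powerset, Lam K B β T ≤ if W = ∅ then 1 else 0

/-- SVB: bounds for one block. -/
def ST_SVB : Prop := ∀ (S : ℝ) (X : Finset ℕ) (b : ℕ), 0 < S → (∀ p ∈ X, 2 ≤ p) →
  ∑ p ∈ X, 1 / (p : ℝ) ≤ S →
  (∏ p ∈ X, (1 - 1 / (p : ℝ)) ≤ ∑ T ∈ X.powerset, al b T / pr T) ∧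
  (∑ T ∈ X.powerset, al b T / pr T ≤ ∏ p ∈ X, (1 - 1 / (p : ℝ)) +
    S ^ (2 * b + 1) / ((2 * b + 1).factorial : ℝ)) ∧
  (0 ≤ ∑ T ∈ X.powerset, be b T / pr T) ∧
  (∑ T ∈ X.powerset, be b T / pr T ≤ S ^ (2 * b + 1) / ((2 * b + 1).factorial : ℝ)) ∧
  ∀ U ⊆ X, |∑ T ∈ X.powerset.filter (fun T => U ⊆ T), al b T / pr T| ≤ Real.exp S / pr U ∧
    |∑ T ∈ X.powerset.filter (fun T => U ⊆ T), be b T / pr T| ≤ Real.exp S / pr U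

/-- VSW: the product over the primes against `sw`. -/
def ST_VSW : Prop := ∃ C : ℝ, 1 ≤ C ∧ ∀ A : Finset ℕ, (∀ p ∈ A, 2 ≤ p) →
  ∏ p ∈ A, (1 - 1 / (p : ℝ)) ≤ sw A ∧ sw A ≤ C * ∏ p ∈ A, (1 - 1 / (p : ℝ)) ∧
  Real.exp (-2 * ∑ p ∈ A, 1 / (p : ℝ)) ≤ ∏ p ∈ A, (1 - 1 / (p : ℝ))

/-- SV3: the coefficients. -/
def ST_SV3 : Prop := ∀ S : ℝ, 0 < S → ∃ β C : ℕ, 2 ≤ C ∧ ∀ (K : ℕ) (B : ℕ → Finset ℕ), Dsj K B →
  (∀ m < K, ∀ p ∈ B m, C ≤ p) → (∀ m < K, ∑ p ∈ B m, 1 / (p : ℝ) ≤ S) →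
  (sw (un K B) ≤ C * ∑ T ∈ (un K B).powerset, Lam K B β T / pr T) ∧
  ∀ U ⊆ un K B, |∑ T ∈ (un K B).powerset.filter (fun T => U ⊆ T), Lam K B β T / pr T| ≤
    C * sw (un K B) / Real.sqrt (pr U)

/-- LOW: many pairs of points of a dense set have a difference free of the primes of `A`. -/
def ST_LOW : Prop := ∃ (b y₀ : ℕ) (c C : ℝ), 1 ≤ b ∧ 0 < c ∧ 0 < C ∧
  ∀ (j : ℕ → ℤ) (N M : ℕ) (P : Finset (ℤ × ℤ)) (y K : ℕ), 1 ≤ M → 1 ≤ N → P ⊆ box N M →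
  y₀ ≤ y → (y ^ (2 ^ K)) ^ b ≤ N → C * (M * N) ≤ Real.sqrt y * P.card →
  c * sw (P1 y (y ^ (2 ^ K))) * (P.card : ℝ) ^ 2 ≤
    ((P ×ˢ P).filter (fun a => Free j (P1 y (y ^ (2 ^ K))) (a.1 - a.2))).card

/-! ### C. Multiplicities -/

/-- MUL: number of vectors of given length, free of the primes of `A`. -/
def ST_MUL : Prop := ∀ (j : ℕ → ℤ) (A : Finset ℕ) (m : ℕ), Root j → (∀ p ∈ A, p.Prime ∧ p % 4 = 1) →
  1 ≤ m → ∀ S : Finset (ℤ × ℤ), (∀ v ∈ S, nm v = m ∧ Free j A v) →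
  S.card ≤ 4 * ∏ p ∈ m.primeFactors.filter (fun p => p % 4 = 1 ∧ p ∉ A), (m.factorization p + 1)

/-- IDL: the vectors whose norm is divisible by `e` lie in `tau e` lattices of index `e`. -/
def ST_IDL : Prop := ∀ e : ℕ, 1 ≤ e → (∀ p : ℕ, p.Prime → p ∣ e → p % 4 = 1) →
  ∃ L : Finset (ℕ × ℤ), L.card ≤ tau e ∧ (∀ l ∈ L, 1 ≤ l.1 ∧ l.1 ^ 2 ∣ e) ∧
    ∀ v : ℤ × ℤ, e ∣ nm v →
      ∃ l ∈ L, (l.1 : ℤ) ∣ v.2 ∧ ((e / l.1 : ℕ) : ℤ) ∣ v.1 - l.2 * v.2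

/-- UPS: upper bound sieve in the box. -/
def ST_UPS : Prop := ∃ (b : ℕ) (C : ℝ), 1 ≤ b ∧ 0 < C ∧
  ∀ (j : ℕ → ℤ) (N M z e : ℕ) (A : Finset ℕ), 1 ≤ M → M ≤ N → 2 ≤ z → 1 ≤ e → z ^ b * e ≤ N →
  e ≤ M ^ 2 → (∀ p ∈ A, p.Prime ∧ 7 ≤ p ∧ p ≤ z ∧ ¬ p ∣ e) →
  (∀ p : ℕ, p.Prime → p ∣ e → p % 4 = 1) →
  (((sbox N M).filter (fun v => e ∣ nm v ∧ Free j A v)).card : ℝ) ≤
    C * tau e * ((M : ℝ) * N / e) * sw A

/-- LDR: powers of the number of divisors and small divisors (Landreau). -/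
def ST_LDR : Prop := ∀ k t : ℕ, 1 ≤ k → ∃ (C : ℝ) (K : ℕ), 0 < C ∧ ∀ m : ℕ, 1 ≤ m →
  (tau m : ℝ) ^ t ≤ C * ∑ e ∈ m.divisors.filter (fun e => e ^ k ≤ m), (tau e : ℝ) ^ K

/-- SMS: sums over smooth numbers. -/
def ST_SMS : Prop := ∀ K : ℕ, ∃ (C : ℝ) (L : ℕ), 0 < C ∧ ∀ (y : ℕ) (F : Finset ℕ), 2 ≤ y →
  (∀ e ∈ F, 1 ≤ e ∧ ∀ p : ℕ, p.Prime → p ∣ e → p ≤ y) →
  ∑ e ∈ F, (tau e : ℝ) ^ K / e ≤ C * (1 + Real.log y) ^ L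

/-- MOM: moments of the small part of the norm over the free vectors of the box. -/
def ST_MOM : Prop := ∀ t : ℕ, ∃ (b L : ℕ) (C : ℝ), 1 ≤ b ∧ 0 < C ∧
  ∀ (j : ℕ → ℤ) (N M y z : ℕ), 6 ≤ y → y ≤ z → z ^ b ≤ N → 1 ≤ M → M ≤ N → N ≤ M ^ 4 →
  ∑ v ∈ (sbox N M).filter (fun v => v ≠ 0 ∧ Free j (P1 y z) v), (tau (ms y v) : ℝ) ^ t ≤
    C * (1 + Real.log y) ^ L * ((M : ℝ) * N) * sw (P1 y z)

/-! ### D. Assembly -/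

/-- SWL: Mertens for the primes `1 mod 4`. -/
def ST_SWL : Prop := ∃ c : ℝ, 0 < c ∧ ∀ y z : ℕ, 2 ≤ y → y ≤ z →
  c / Real.sqrt (Real.log z) ≤ sw (P1 y z)

/-- THIN: thin boxes. -/
def ST_THIN : Prop := ∀ (N M : ℕ) (P : Finset (ℤ × ℤ)), 1 ≤ M → P ⊆ box N M →
  6 * M ^ 3 ≤ P.card → P.card ≤ 8 * dc P

/-- TRIV: the bound from the divisor function. -/
def ST_TRIV : Prop := ∀ η : ℝ, 0 < η → ∃ C : ℝ, 0 < C ∧
  ∀ (N M : ℕ) (P : Finset (ℤ × ℤ)), 1 ≤ M → M ≤ N → P ⊆ box N M → 2 ≤ P.card →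
  (P.card : ℝ) ≤ C * (N : ℝ) ^ η * dc P

/-- CORE: the counting argument. -/
def ST_CORE : Prop := ∀ (j : ℕ → ℤ) (N M : ℕ) (P : Finset (ℤ × ℤ)) (y z k : ℕ) (c R : ℝ),
  Root j → 1 ≤ M → M ≤ N → P ⊆ box N M → 1 ≤ P.card → 2 ≤ y → y ≤ z → 2 * N ^ 2 < z ^ k →
  0 < c → 1 ≤ R → 4 ≤ c * sw (P1 y z) * P.card →
  c * sw (P1 y z) * (P.card : ℝ) ^ 2 ≤
    ((P ×ˢ P).filter (fun a => Free j (P1 y z) (a.1 - a.2))).card →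
  (((sbox N M).filter (fun v => v ≠ 0 ∧ Free j (P1 y z) v ∧ R < tau (ms y v))).card : ℝ) ≤
    c / 4 * sw (P1 y z) * P.card →
  c * sw (P1 y z) * P.card ≤ 2 ^ (k + 4) * R * dc P

/-- REG: the main range. -/
def ST_REG : Prop := ∀ ε : ℝ, 0 < ε → ∃ (c c₀ : ℝ) (N₀ : ℕ), 0 < c ∧ 0 < c₀ ∧
  ∀ (N M : ℕ) (P : Finset (ℤ × ℤ)), N₀ ≤ N → M ≤ N → N ≤ M ^ 4 → P ⊆ box N M →
  (M : ℝ) * N * (N : ℝ) ^ (-c₀) ≤ P.card →
  c * ((P.card : ℝ) / (M * N)) ^ ε * P.card / Real.sqrt (Real.log N) ≤ dc P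

/-- MAIN: distances in a subset of a box. -/
def ST_MAIN : Prop := ∀ ε : ℝ, 0 < ε → ∃ c : ℝ, 0 < c ∧
  ∀ (N M : ℕ) (P : Finset (ℤ × ℤ)), 1 ≤ M → M ≤ N → P ⊆ box N M → 2 ≤ P.card →
  c * ((P.card : ℝ) / (M * N)) ^ ε * P.card / Real.sqrt (Real.log N) ≤ dc P

/-- FINAL: the theorem in the plane. -/
def ST_FINAL : Prop := ∀ ε : ℝ, 0 < ε → ∃ c : ℝ, 0 < c ∧
  ∀ (M N : ℕ) (o u : ℂ) (P G : Finset ℂ), u ≠ 0 → G ⊆ P →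
    (∀ g ∈ G, ∃ x y : ℕ, x < N ∧ y < M ∧ g = o + u * (x + y * Complex.I)) → 2 ≤ G.card →
    c * ((G.card : ℝ) / (M * N)) ^ ε * G.card / Real.sqrt (Real.log (M * N)) ≤
      (P.offDiag.image (fun a => dist a.1 a.2)).card

end Pool.Agent.Helper37.DG
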