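import Pool.Agent.Helper37.DG.Stmts2
import Pool.Agent.Helper38.SO.SAP
import Pool.Agent.Helper38.SO.Sieve
import Pool.Agent.Helper38.SO.BH
import Pool.Agent.Helper38.SO.Bon
import Pool.Agent.Helper81.SO.Crtc
import Pool.Agent.Helper61.SO.MER
import Pool.Agent.Helper8.SO.LEG
import Pool.Agent.Helper2.SO.PAP
import Pool.Agent.Helper81.SO.Nsq
import Pool.Agent.Helper85.DG.LSI
import Pool.Agent.Helper38.DG.FOU
import Pool.Agent.Helper61.DG.LSD
import Pool.Agent.Helper94.DG.PF
import Pool.Agent.Helper58.DG.SV1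
import Pool.Agent.Helper20.DG.SVB
import Pool.Agent.Helper67.DG.VSW
import Pool.Agent.Helper45.DG.SV3
import Pool.Agent.Helper2.DG.LOWD
import Pool.Agent.Helper57.DG.IDLD
import Pool.Agent.Helper14.DG.MULD
import Pool.Agent.Helper79.DG.UPSD
import Pool.Agent.Helper63.DG.LDR
import Pool.Agent.Helper57.DG.SMS
import Pool.Agent.Helper25.DG.MOMD
import Pool.Agent.Helper8.DG.SWLD
import Pool.Agent.Helper88.DG.THIND
import Pool.Agent.Helper32.DG.TRIVD
import Pool.Agent.Helper8.DG.CORED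
import Pool.Agent.Helper94.DG.REGD
import Pool.Agent.Helper88.DG.MAIND
import Pool.Agent.Helper48.DG.IRR
import Pool.Agent.Helper94.DG.RAT
import Pool.Agent.Helper13.DG.FING

set_option autoImplicit false

/-!
Assembly of the project DG (MP_e500b6_co).
-/

namespace Pool.Agent.Helper37.DG

open Pool.Agent.Helper17.SO

theorem all_SAP : Pool.Agent.Helper17.SO.ST_SAP := st_SAP (st_SIEVE (st_BH st_BONA st_CRTC) st_MER)

theorem all_LEG : Pool.Agent.Helper17.SO.ST_LEG := st_LEG Pool.Agent.Helper2.SO.st_PAP st_NSQ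

theorem all_LSD : ST_LSD := st_LSD st_LSI st_FOU

theorem all_SV1 : ST_SV1 := st_SV1 st_PF

theorem all_SV3 : ST_SV3 := Pool.Agent.Helper45.DG.st_SV3 st_PF st_SVB st_VSW

theorem all_LOWD : ST_LOWD := st_LOWD all_LSD all_SV1 all_SV3 st_MER

theorem all_MULD : ST_MULD := st_MULD st_IDLD

theorem all_UPSD : ST_UPSD := st_UPSD st_IDLD all_SAP

theorem all_MOMD : ST_MOMD := st_MOMD all_UPSD st_LDR st_SMS

theorem all_SWLD : ST_SWLD := st_SWLD st_MER all_LEG

theorem all_CORED : ST_CORED := st_CORED all_MULD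

theorem all_REGD : ST_REGD := st_REGD all_LOWD all_MOMD all_SWLD all_CORED

theorem all_TRIVD : ST_TRIVD := st_TRIVD all_MULD

theorem all_MAIND : ST_MAIND := st_MAIND all_REGD st_THIND all_TRIVD

theorem all_RAT : ST_RAT := st_RAT all_MAIND

theorem all_FING : ST_FING := st_FING st_IRR all_RAT

end Pool.Agent.Helper37.DG
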