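import Mathlib
import Pool.Agent.Helper37.DG.Stmts

set_option autoImplicit false

/-!
Statements of the second part of the project DG (dense subsets of arbitrary planar lattices,
MP_e500b6_co): the form `x ^ 2 + D * y ^ 2` instead of `x ^ 2 + y ^ 2`.
-/

namespace Pool.Agent.Helper37.DG

open Finset
open scoped Classical
open Pool.Agent.Helper17.SO (PP LL)

/-- the form `x ^ 2 + D * y ^ 2` -/
def nmD (D : ℕ) (v : ℤ × ℤ) : ℕ := (v.1 ^ 2 + (D : ℤ) * v.2 ^ 2).natAbs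

/-- the number of non-zero values of the form on differences -/
noncomputable def dcD (D : ℕ) (P : Finset (ℤ × ℤ)) : ℕ :=
  (P.offDiag.image (fun a => nmD D (a.1 - a.2))).card

/-- split primes -/
def Spl (D p : ℕ) : Prop := p.Prime ∧ ¬ p ∣ 2 * D ∧ ∃ r : ℤ, (p : ℤ) ∣ r ^ 2 + D

/-- relevant primes: split or dividing `2 * D` -/
def Rel (D p : ℕ) : Prop := p.Prime ∧ (p ∣ 2 * D ∨ ∃ r : ℤ, (p : ℤ) ∣ r ^ 2 + D)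

/-- the split primes in `(u, w]` -/
noncomputable def PD (D u w : ℕ) : Finset ℕ := (PP u w).filter (Spl D)

/-- the part of `nmD D v` made of the relevant primes up to `y` -/
noncomputable def msD (D y : ℕ) (v : ℤ × ℤ) : ℕ :=
  ∏ p ∈ (PP 0 y).filter (Rel D), p ^ (nmD D v).factorization p

/-- LOWD: as LOW, for any set of primes. -/
def ST_LOWD : Prop := ∃ (b y₀ : ℕ) (c C : ℝ), 1 ≤ b ∧ 0 < c ∧ 0 < C ∧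
  ∀ (j : ℕ → ℤ) (N M : ℕ) (P : Finset (ℤ × ℤ)) (y K : ℕ) (A : Finset ℕ), 1 ≤ M → 1 ≤ N →
  P ⊆ box N M → y₀ ≤ y → (y ^ (2 ^ K)) ^ b ≤ N → A ⊆ PP y (y ^ (2 ^ K)) →
  C * (M * N) ≤ Real.sqrt y * P.card →
  c * sw A * (P.card : ℝ) ^ 2 ≤ ((P ×ˢ P).filter (fun a => Free j A (a.1 - a.2))).card

/-- IDLD: lattices of index `e` containing the vectors with `e` dividing the form. -/
def ST_IDLD : Prop := ∀ D : ℕ, 1 ≤ D → ∃ C : ℕ, 1 ≤ C ∧ ∀ (j : ℕ → ℤ) (A : Finset ℕ) (e : ℕ),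
  (∀ p ∈ A, Spl D p ∧ (p : ℤ) ∣ j p ^ 2 + D) → 1 ≤ e →
  ∃ L : Finset (ℕ × ℤ),
    L.card ≤ C * ∏ p ∈ e.primeFactors.filter (fun p => Rel D p ∧ p ∉ A), (e.factorization p + 1) ∧
    (∀ l ∈ L, 1 ≤ l.1 ∧ l.1 ^ 2 ∣ e) ∧
    ∀ v : ℤ × ℤ, e ∣ nmD D v → Free j A v →
      ∃ l ∈ L, (l.1 : ℤ) ∣ v.2 ∧ ((e / l.1 : ℕ) : ℤ) ∣ v.1 - l.2 * v.2

/-- MULD: number of vectors with a given value of the form, free of the primes of `A`. -/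
def ST_MULD : Prop := ∀ D : ℕ, 1 ≤ D → ∃ C : ℕ, 1 ≤ C ∧ ∀ (j : ℕ → ℤ) (A : Finset ℕ) (m : ℕ),
  (∀ p ∈ A, Spl D p ∧ (p : ℤ) ∣ j p ^ 2 + D) → 1 ≤ m →
  ∀ S : Finset (ℤ × ℤ), (∀ v ∈ S, nmD D v = m ∧ Free j A v) →
  S.card ≤ C * ∏ p ∈ m.primeFactors.filter (fun p => Rel D p ∧ p ∉ A), (m.factorization p + 1)

/-- UPSD: upper bound sieve in the box. -/
def ST_UPSD : Prop := ∀ D : ℕ, 1 ≤ D → ∃ (b : ℕ) (C : ℝ), 1 ≤ b ∧ 0 < C ∧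
  ∀ (j : ℕ → ℤ) (N M z e : ℕ) (A : Finset ℕ), 1 ≤ M → M ≤ N → 2 ≤ z → 1 ≤ e → z ^ b * e ≤ N →
  e ≤ M ^ 2 → (∀ p ∈ A, p.Prime ∧ 7 ≤ p ∧ p ≤ z ∧ ¬ p ∣ e) →
  (((sbox N M).filter (fun v => e ∣ nmD D v ∧ Free j A v)).card : ℝ) ≤
    C * tau e * ((M : ℝ) * N / e) * sw A

/-- MOMD: moments. -/
def ST_MOMD : Prop := ∀ D : ℕ, 1 ≤ D → ∀ t : ℕ, ∃ (b L : ℕ) (C : ℝ), 1 ≤ b ∧ 0 < C ∧
  ∀ (j : ℕ → ℤ) (N M y z : ℕ), 6 ≤ y → 2 * D ≤ y → y ≤ z → z ^ b ≤ N → 1 ≤ M → M ≤ N → N ≤ M ^ 4 →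
  ∑ v ∈ (sbox N M).filter (fun v => v ≠ 0 ∧ Free j (PD D y z) v), (tau (msD D y v) : ℝ) ^ t ≤
    C * (1 + Real.log y) ^ L * ((M : ℝ) * N) * sw (PD D y z)

/-- SWLD: Mertens for the split primes. -/
def ST_SWLD : Prop := ∀ D : ℕ, 1 ≤ D → ∃ c : ℝ, 0 < c ∧ ∀ y z : ℕ, 2 ≤ y → y ≤ z →
  c / Real.sqrt (Real.log z) ≤ sw (PD D y z)

/-- THIND: thin boxes. -/
def ST_THIND : Prop := ∀ (D N M : ℕ) (P : Finset (ℤ × ℤ)), 1 ≤ D → 1 ≤ M → P ⊆ box N M →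
  6 * D * M ^ 3 ≤ P.card → P.card ≤ 8 * dcD D P

/-- TRIVD: the bound from the divisor function. -/
def ST_TRIVD : Prop := ∀ D : ℕ, 1 ≤ D → ∀ η : ℝ, 0 < η → ∃ C : ℝ, 0 < C ∧
  ∀ (N M : ℕ) (P : Finset (ℤ × ℤ)), 1 ≤ M → M ≤ N → P ⊆ box N M → 2 ≤ P.card →
  (P.card : ℝ) ≤ C * (N : ℝ) ^ η * dcD D P

/-- CORED: the counting argument. -/
def ST_CORED : Prop := ∀ D : ℕ, 1 ≤ D → ∃ C : ℝ, 0 < C ∧
  ∀ (j : ℕ → ℤ) (N M : ℕ) (P : Finset (ℤ × ℤ)) (y z k : ℕ) (c R : ℝ),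
  (∀ p ∈ PD D y z, (p : ℤ) ∣ j p ^ 2 + D) → 1 ≤ M → M ≤ N → P ⊆ box N M → 1 ≤ P.card →
  2 ≤ y → 2 * D ≤ y → y ≤ z → (D + 1) * N ^ 2 < z ^ k →
  0 < c → 1 ≤ R → 4 ≤ c * sw (PD D y z) * P.card →
  c * sw (PD D y z) * (P.card : ℝ) ^ 2 ≤
    ((P ×ˢ P).filter (fun a => Free j (PD D y z) (a.1 - a.2))).card →
  (((sbox N M).filter (fun v => v ≠ 0 ∧ Free j (PD D y z) v ∧ R < tau (msD D y v))).card : ℝ) ≤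
    c / 4 * sw (PD D y z) * P.card →
  c * sw (PD D y z) * P.card ≤ C * 2 ^ k * R * dcD D P

/-- REGD: the main range. -/
def ST_REGD : Prop := ∀ D : ℕ, 1 ≤ D → ∀ ε : ℝ, 0 < ε → ∃ (c c₀ : ℝ) (N₀ : ℕ), 0 < c ∧ 0 < c₀ ∧
  ∀ (N M : ℕ) (P : Finset (ℤ × ℤ)), N₀ ≤ N → M ≤ N → N ≤ M ^ 4 → P ⊆ box N M →
  (M : ℝ) * N * (N : ℝ) ^ (-c₀) ≤ P.card →
  c * ((P.card : ℝ) / (M * N)) ^ ε * P.card / Real.sqrt (Real.log N) ≤ dcD D P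

/-- MAIND: values of the form on the differences of a subset of a box. -/
def ST_MAIND : Prop := ∀ D : ℕ, 1 ≤ D → ∀ ε : ℝ, 0 < ε → ∃ c : ℝ, 0 < c ∧
  ∀ (N M : ℕ) (P : Finset (ℤ × ℤ)), 1 ≤ M → M ≤ N → P ⊆ box N M → 2 ≤ P.card →
  c * ((P.card : ℝ) / (M * N)) ^ ε * P.card / Real.sqrt (Real.log N) ≤ dcD D P

/-- IRR: a positive definite form which is not proportional to an integral form takes every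
non-zero value at most four times. -/
def ST_IRR : Prop := ∀ A B C : ℝ, 0 < A → 0 < 4 * A * C - B ^ 2 →
  (¬ ∃ (t : ℝ) (a b c : ℤ), A = t * a ∧ B = t * b ∧ C = t * c) →
  ∀ (s : ℝ) (S : Finset (ℤ × ℤ)), 0 < s →
  (∀ v ∈ S, A * (v.1 : ℝ) ^ 2 + B * (v.1 : ℝ) * (v.2 : ℝ) + C * (v.2 : ℝ) ^ 2 = s) → S.card ≤ 4

/-- RAT: the case of lattices similar to an integral form. -/
def ST_RAT : Prop := ∀ (t : ℝ) (a b c : ℤ), 0 < t → 0 < a → 0 < 4 * a * c - b ^ 2 →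
  ∀ ε : ℝ, 0 < ε → ∃ k : ℝ, 0 < k ∧ ∀ (N M : ℕ) (P : Finset (ℤ × ℤ)), P ⊆ box N M → 2 ≤ P.card →
  k * ((P.card : ℝ) / (M * N)) ^ ε * P.card / Real.sqrt (Real.log (M * N)) ≤
    (P.offDiag.image (fun u => t * a * ((u.1.1 - u.2.1 : ℤ) : ℝ) ^ 2 +
      t * b * ((u.1.1 - u.2.1 : ℤ) : ℝ) * ((u.1.2 - u.2.2 : ℤ) : ℝ) +
      t * c * ((u.1.2 - u.2.2 : ℤ) : ℝ) ^ 2)).card

/-- FING: dense subsets of planar lattices. -/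
def ST_FING : Prop := ∀ α β : ℂ, α.re * β.im - α.im * β.re ≠ 0 → ∀ ε : ℝ, 0 < ε →
  ∃ c : ℝ, 0 < c ∧ ∀ (M N : ℕ) (o : ℂ) (P G : Finset ℂ), G ⊆ P →
    (∀ g ∈ G, ∃ x y : ℕ, x < N ∧ y < M ∧ g = o + x * α + y * β) → 2 ≤ G.card →
    c * ((G.card : ℝ) / (M * N)) ^ ε * G.card / Real.sqrt (Real.log (M * N)) ≤
      (P.offDiag.image (fun a => dist a.1 a.2)).card

end Pool.Agent.Helper37.DG
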